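import Mathlib

/-!
# Weighted core of the mad-partition theorem

For a symmetric nonnegative weight `A` on a finite set with `A(s,s) ≤ 2κ|s|` for all `s`, and
`c > κ`, there are positive `h` with `∑_u A u v h_u/(h_u+h_v) ≤ c` for every `v`
(minimise `c ∑ α + ½ ∑ A log(e^{-α_u}+e^{-α_v})`).  A colouring which minimises the symmetric
energy with weights `A u v h_u h_v/(h_u+h_v)/p_i` then has all its classes sparse.
-/

namespace Pool.Agent.H28.MD

open Finset

variable {V : Type*} [Fintype V] [DecidableEq V]

/-- Layer cake. -/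
lemma layer (A : V → V → ℝ) (κ : ℝ)
    (hE : ∀ s : Finset V, ∑ u ∈ s, ∑ v ∈ s, A u v ≤ 2 * κ * s.card) :
    ∀ (n : ℕ) (α : V → ℝ), (∀ v, 0 ≤ α v) →
      (univ.filter (fun v => 0 < α v)).card = n →
      ∑ u, ∑ v, A u v * min (α u) (α v) ≤ 2 * κ * ∑ v, α v := by
  intro n
  induction n using Nat.strong_induction_on with
  | _ n ih =>
    intro α hα hn
    by_cases hs : (univ.filter (fun v => 0 < α v)) = ∅
    · have h0 : ∀ v, α v = 0 := by
        intro v
        by_contra hne
        have : v ∈ univ.filter (fun v => 0 < α v) := by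
          rw [mem_filter]
          exact ⟨mem_univ _, lt_of_le_of_ne (hα v) (Ne.symm hne)⟩
        rw [hs] at this
        simp at this
      simp [h0]
    · obtain ⟨v0, hv0, hmin⟩ :=
        Finset.exists_min_image _ α (Finset.nonempty_iff_ne_empty.mpr hs)
      have hm : 0 < α v0 := (mem_filter.mp hv0).2
      set s := univ.filter (fun v => 0 < α v) with hsdef
      let β : V → ℝ := fun v => α v - if v ∈ s then α v0 else 0
      have hβ : ∀ v, 0 ≤ β v := by
        intro v
        by_cases hv : v ∈ s
        · simp only [β, hv, if_true]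
          linarith [hmin v hv]
        · simp only [β, hv, if_false]
          linarith [hα v]
      have hcard : (univ.filter (fun v => 0 < β v)).card < n := by
        rw [← hn]
        apply Finset.card_lt_card
        rw [Finset.ssubset_iff_of_subset]
        · refine ⟨v0, hv0, ?_⟩
          rw [mem_filter]
          rintro ⟨-, h⟩
          simp only [β, hv0, if_true] at h
          linarith
        · intro v hv
          rw [mem_filter] at hv
          by_contra hns
          have : β v = α v := by simp only [β, hns, if_false, sub_zero]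
          rw [this] at hv
          exact hns (mem_filter.mpr hv)
      have hih := ih _ hcard β hβ rfl
      have hmineq : ∀ u v, A u v * min (α u) (α v) =
          A u v * min (β u) (β v) + α v0 * (if u ∈ s then (if v ∈ s then A u v else 0) else 0) := by
        intro u v
        by_cases hu : u ∈ s <;> by_cases hv : v ∈ s
        · simp only [β, hu, hv, if_true]
          rw [min_sub_sub_right]
          ring
        · have hv' : α v = 0 := by
            by_contra hne
            exact hv (mem_filter.mpr ⟨mem_univ _, lt_of_le_of_ne (hα v) (Ne.symm hne)⟩)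
          simp only [β, hu, hv, if_true, if_false, hv', sub_zero]
          rw [min_eq_right (hα u), min_eq_right (by linarith [hmin u hu])]
          ring
        · have hu' : α u = 0 := by
            by_contra hne
            exact hu (mem_filter.mpr ⟨mem_univ _, lt_of_le_of_ne (hα u) (Ne.symm hne)⟩)
          simp only [β, hu, hv, if_true, if_false, hu', sub_zero]
          rw [min_eq_left (hα v), min_eq_left (by linarith [hmin v hv])]
          ring
        · have hu' : α u = 0 := by
            by_contra hne
            exact hu (mem_filter.mpr ⟨mem_univ _, lt_of_le_of_ne (hα u) (Ne.symm hne)⟩)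
          simp only [β, hu, hv, if_false, hu', sub_zero]
          ring
      have hsum1 : ∑ u, ∑ v, (if u ∈ s then (if v ∈ s then A u v else 0) else 0)
          = ∑ u ∈ s, ∑ v ∈ s, A u v := by
        rw [← Finset.sum_filter_add_sum_filter_not univ (fun u => u ∈ s)]
        have e1 : ∑ x ∈ univ.filter (fun u => u ∉ s),
            ∑ v, (if x ∈ s then (if v ∈ s then A x v else 0) else 0) = 0 := by
          apply Finset.sum_eq_zero
          intro x hx
          rw [mem_filter] at hx
          simp [hx.2]
        rw [e1, add_zero]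
        have e2 : univ.filter (fun u => u ∈ s) = s := by
          ext x; simp
        rw [e2]
        apply Finset.sum_congr rfl
        intro x hx
        simp only [hx, if_true]
        rw [Finset.sum_ite_mem, Finset.univ_inter]
      have hsum2 : ∑ v, α v = ∑ v, β v + α v0 * s.card := by
        have : ∀ v, α v = β v + if v ∈ s then α v0 else 0 := by
          intro v; simp only [β]; ring
        rw [Finset.sum_congr rfl (fun v _ => this v), Finset.sum_add_distrib,
          Finset.sum_ite_mem, Finset.univ_inter, Finset.sum_const, nsmul_eq_mul]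
        ring
      have hsum3 : ∑ u, ∑ v, A u v * min (α u) (α v)
          = ∑ u, ∑ v, A u v * min (β u) (β v) + α v0 * ∑ u ∈ s, ∑ v ∈ s, A u v := by
        rw [← hsum1, Finset.mul_sum, ← Finset.sum_add_distrib]
        apply Finset.sum_congr rfl
        intro u _
        rw [Finset.mul_sum, ← Finset.sum_add_distrib]
        apply Finset.sum_congr rfl
        intro v _
        exact hmineq u v
      rw [hsum3, hsum2]
      have := mul_le_mul_of_nonneg_left (hE s) hm.le
      nlinarith [hih, this]

/-- The interaction. -/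
noncomputable def gg (a b : ℝ) : ℝ := Real.log (Real.exp (-a) + Real.exp (-b))

lemma gg_comm (a b : ℝ) : gg a b = gg b a := by
  unfold gg; rw [add_comm]

lemma gg_lower (a b : ℝ) : -min a b ≤ gg a b := by
  unfold gg
  rw [Real.le_log_iff_exp_le (by positivity)]
  rcases le_total a b with h | h
  · rw [min_eq_left h]
    linarith [Real.exp_pos (-b)]
  · rw [min_eq_right h]
    linarith [Real.exp_pos (-a)]

lemma gg_diff (a b t : ℝ) :
    gg a (b + t) - gg a b ≤ -((1 - Real.exp (-t)) *
      (Real.exp a / (Real.exp a + Real.exp b))) := by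
  unfold gg
  have h1 : 0 < Real.exp (-a) + Real.exp (-b) := by positivity
  have h2 : 0 < Real.exp (-a) + Real.exp (-(b + t)) := by positivity
  rw [← Real.log_div h2.ne' h1.ne']
  have h3 := Real.log_le_sub_one_of_pos (div_pos h2 h1)
  refine h3.trans (le_of_eq ?_)
  have ea : Real.exp (-a) = (Real.exp a)⁻¹ := Real.exp_neg a
  have eb : Real.exp (-b) = (Real.exp b)⁻¹ := Real.exp_neg b
  have ebt : Real.exp (-(b + t)) = (Real.exp b)⁻¹ * Real.exp (-t) := by
    rw [neg_add, Real.exp_add, Real.exp_neg b]
  rw [ea, eb, ebt]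
  have pa := Real.exp_pos a
  have pb := Real.exp_pos b
  field_simp
  ring

/-- The functional. -/
noncomputable def DD (A : V → V → ℝ) (c : ℝ) (α : V → ℝ) : ℝ :=
  c * ∑ v, α v + 1 / 2 * ∑ u, ∑ v, A u v * gg (α u) (α v)

lemma DD_continuous (A : V → V → ℝ) (c : ℝ) : Continuous (DD A c) := by
  unfold DD gg
  refine Continuous.add ?_ ?_
  · fun_prop
  · refine continuous_const.mul ?_
    refine continuous_finsetSum _ fun u _ => continuous_finsetSum _ fun v _ => ?_
    refine continuous_const.mul ?_
    refine Continuous.log (by fun_prop) ?_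
    intro x
    positivity

lemma DD_lower (A : V → V → ℝ) (hA : ∀ u v, 0 ≤ A u v) (κ c : ℝ)
    (hE : ∀ s : Finset V, ∑ u ∈ s, ∑ v ∈ s, A u v ≤ 2 * κ * s.card)
    (α : V → ℝ) (hα : ∀ v, 0 ≤ α v) : (c - κ) * ∑ v, α v ≤ DD A c α := by
  have h1 := layer A κ hE _ α hα rfl
  have h2 : -(∑ u, ∑ v, A u v * min (α u) (α v)) ≤ ∑ u, ∑ v, A u v * gg (α u) (α v) := by
    rw [← Finset.sum_neg_distrib]
    apply Finset.sum_le_sum
    intro u _
    rw [← Finset.sum_neg_distrib]
    apply Finset.sum_le_sum
    intro v _
    have := mul_le_mul_of_nonneg_left (gg_lower (α u) (α v)) (hA u v)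
    linarith
  unfold DD
  linarith

lemma DD_update (A : V → V → ℝ) (hsym : ∀ u v, A u v = A v u) (hd : ∀ v, A v v = 0)
    (hA : ∀ u v, 0 ≤ A u v) (c : ℝ) (α : V → ℝ) (w : V) (t : ℝ) :
    DD A c (Function.update α w (α w + t)) - DD A c α ≤
      c * t - (1 - Real.exp (-t)) *
        ∑ u, A u w * (Real.exp (α u) / (Real.exp (α u) + Real.exp (α w))) := by
  classical
  set α' := Function.update α w (α w + t) with hα'
  have hw : α' w = α w + t := by simp [hα']
  have hne : ∀ u, u ≠ w → α' u = α u := by
    intro u hu; simp [hα', Function.update_of_ne hu]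
  have hlin : ∑ v, α' v = ∑ v, α v + t := by
    have : ∀ v, α' v = α v + if v = w then t else 0 := by
      intro v
      by_cases h : v = w
      · subst h; simp [hw]
      · simp [hne v h, h]
    rw [Finset.sum_congr rfl (fun v _ => this v), Finset.sum_add_distrib,
      Finset.sum_ite_eq' univ w]
    simp
  have hpair : ∀ u v, A u v * gg (α' u) (α' v) = A u v * gg (α u) (α v)
      + (if u = w then A v w * (gg (α v) (α w + t) - gg (α v) (α w)) else 0)
      + (if v = w then A u w * (gg (α u) (α w + t) - gg (α u) (α w)) else 0) := by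
    intro u v
    by_cases hu : u = w <;> by_cases hv : v = w
    · subst hu; subst hv
      simp [hd]
    · subst hu
      simp only [if_true, hv, if_false, add_zero]
      rw [hw, hne v hv, gg_comm (α u + t) (α v), gg_comm (α u) (α v), hsym u v]
      ring
    · subst hv
      simp only [if_true, hu, if_false, add_zero]
      rw [hw, hne u hu]
      ring
    · simp only [hu, hv, if_false, add_zero]
      rw [hne u hu, hne v hv]
  have hsum : ∑ u, ∑ v, A u v * gg (α' u) (α' v) = ∑ u, ∑ v, A u v * gg (α u) (α v)
      + 2 * ∑ u, A u w * (gg (α u) (α w + t) - gg (α u) (α w)) := by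
    have e1 : ∑ u, ∑ v, A u v * gg (α' u) (α' v) = ∑ u, (∑ v, A u v * gg (α u) (α v)
        + (if u = w then ∑ v, A v w * (gg (α v) (α w + t) - gg (α v) (α w)) else 0)
        + A u w * (gg (α u) (α w + t) - gg (α u) (α w))) := by
      apply Finset.sum_congr rfl
      intro u _
      rw [Finset.sum_congr rfl (fun v _ => hpair u v), Finset.sum_add_distrib,
        Finset.sum_add_distrib]
      congr 1
      · congr 1
        by_cases hu : u = w
        · simp [hu]
        · simp [hu]
      · rw [Finset.sum_ite_eq' univ w]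
        simp
    rw [e1, Finset.sum_add_distrib, Finset.sum_add_distrib, Finset.sum_ite_eq' univ w]
    simp only [mem_univ, if_true]
    ring
  have hdiff : DD A c α' - DD A c α = c * t
      + ∑ u, A u w * (gg (α u) (α w + t) - gg (α u) (α w)) := by
    unfold DD
    rw [hsum, hlin]
    ring
  rw [hdiff]
  have hle : ∑ u, A u w * (gg (α u) (α w + t) - gg (α u) (α w)) ≤
      ∑ u, -((1 - Real.exp (-t)) *
        (A u w * (Real.exp (α u) / (Real.exp (α u) + Real.exp (α w))))) := by
    apply Finset.sum_le_sum
    intro u _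
    have := mul_le_mul_of_nonneg_left (gg_diff (α u) (α w) t) (hA u w)
    linarith
  rw [Finset.sum_neg_distrib, ← Finset.mul_sum] at hle
  linarith

/-- Detailed-balance orientation. -/
lemma balance (A : V → V → ℝ) (hsym : ∀ u v, A u v = A v u) (hd : ∀ v, A v v = 0)
    (hA : ∀ u v, 0 ≤ A u v) (κ c : ℝ) (hκ : κ < c)
    (hE : ∀ s : Finset V, ∑ u ∈ s, ∑ v ∈ s, A u v ≤ 2 * κ * s.card) :
    ∃ h : V → ℝ, (∀ v, 0 < h v) ∧ ∀ w, ∑ u, A u w * (h u / (h u + h w)) ≤ c := by
  classical
  set M : ℝ := DD A c 0 / (c - κ) + 1 with hM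
  have hck : 0 < c - κ := by linarith
  have hD0 : 0 ≤ DD A c 0 := by
    have := DD_lower A hA κ c hE 0 (fun _ => le_refl _)
    simpa using this
  have hM0 : 0 < M := by positivity
  have hcomp : IsCompact (Set.Icc (0 : V → ℝ) (fun _ => M)) := isCompact_Icc
  have hne : (Set.Icc (0 : V → ℝ) (fun _ => M)).Nonempty :=
    ⟨0, le_refl _, fun _ => hM0.le⟩
  obtain ⟨α, hαm, hmin⟩ := hcomp.exists_isMinOn hne (DD_continuous A c).continuousOn
  have hα0 : ∀ v, 0 ≤ α v := fun v => hαm.1 v
  have hglob : ∀ β : V → ℝ, (∀ v, 0 ≤ β v) → DD A c α ≤ DD A c β := by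
    intro β hβ
    by_cases hb : ∀ v, β v ≤ M
    · exact hmin ⟨hβ, hb⟩
    · push Not at hb
      obtain ⟨v, hv⟩ := hb
      have h1 := DD_lower A hA κ c hE β hβ
      have h2 : M ≤ ∑ v, β v :=
        hv.le.trans (Finset.single_le_sum (fun v _ => hβ v) (mem_univ v))
      have h3 : DD A c α ≤ DD A c 0 := hmin ⟨le_refl _, fun _ => hM0.le⟩
      have h4 : (c - κ) * M = DD A c 0 + (c - κ) := by
        rw [hM]; field_simp
      have h5 := mul_le_mul_of_nonneg_left h2 hck.le
      linarith
  refine ⟨fun v => Real.exp (α v), fun v => Real.exp_pos _, ?_⟩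
  intro w
  set X := ∑ u, A u w * (Real.exp (α u) / (Real.exp (α u) + Real.exp (α w))) with hX
  have hXt : ∀ t : ℝ, 0 < t → X ≤ c * (1 + t) := by
    intro t ht
    have h1 := DD_update A hsym hd hA c α w t
    have h2 := hglob (Function.update α w (α w + t)) (by
      intro v
      by_cases hv : v = w
      · subst hv; simp; linarith [hα0 v]
      · simp [Function.update_of_ne hv, hα0 v])
    rw [← hX] at h1
    have h3 : (1 - Real.exp (-t)) * X ≤ c * t := by linarith
    have hX0 : 0 ≤ X := by
      rw [hX]
      apply Finset.sum_nonneg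
      intro u _
      exact mul_nonneg (hA u w) (by positivity)
    have h4 : t / (1 + t) ≤ 1 - Real.exp (-t) := by
      have : Real.exp (-t) ≤ 1 / (1 + t) := by
        rw [Real.exp_neg, ← one_div]
        apply one_div_le_one_div_of_le (by linarith)
        linarith [Real.add_one_le_exp t]
      have e : t / (1 + t) = 1 - 1 / (1 + t) := by
        field_simp
        ring
      rw [e]; linarith
    have h5 : t / (1 + t) * X ≤ c * t := (mul_le_mul_of_nonneg_right h4 hX0).trans h3
    rw [div_mul_eq_mul_div, div_le_iff₀ (by linarith)] at h5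
    have h6 : t * X ≤ t * (c * (1 + t)) := by linarith
    exact le_of_mul_le_mul_left h6 ht
  by_contra hcon
  push Not at hcon
  have hc0 : c ≤ 0 ∨ 0 < c := le_or_gt c 0
  rcases hc0 with h | h
  · have := hXt 1 one_pos
    have : X ≤ c := by nlinarith
    exact absurd this (not_le.mpr hcon)
  · have := hXt ((X - c) / (2 * c)) (by apply div_pos <;> linarith)
    have e : c * (1 + (X - c) / (2 * c)) = c + (X - c) / 2 := by
      field_simp
    rw [e] at this
    linarith


section Colour

variable {ι : Type*} [Fintype ι] [DecidableEq ι]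

/-- Energy of a colouring. -/
noncomputable def PhiE (s : V → V → ℝ) (p : ι → ℝ) (c : V → ι) : ℝ :=
  ∑ u, ∑ v, if c u = c v then s u v / p (c v) else 0

omit [Fintype ι] in
lemma PhiE_update (s : V → V → ℝ) (hsym : ∀ u v, s u v = s v u) (hd : ∀ v, s v v = 0)
    (p : ι → ℝ) (c : V → ι) (w : V) (j : ι) :
    PhiE s p (Function.update c w j) - PhiE s p c =
      2 * ∑ u, ((if c u = j then s u w / p j else 0)
        - (if c u = c w then s u w / p (c w) else 0)) := by
  classical
  set c' := Function.update c w j with hc'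
  have hw : c' w = j := by simp [hc']
  have hne : ∀ u, u ≠ w → c' u = c u := by
    intro u hu; simp [hc', Function.update_of_ne hu]
  let K : V → ℝ := fun u => (if c u = j then s u w / p j else 0)
        - (if c u = c w then s u w / p (c w) else 0)
  have hpair : ∀ u v, (if c' u = c' v then s u v / p (c' v) else 0) =
      (if c u = c v then s u v / p (c v) else 0)
      + (if u = w then K v else 0) + (if v = w then K u else 0) := by
    intro u v
    by_cases hu : u = w <;> by_cases hv : v = w
    · subst hu; subst hv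
      simp [hd, K]
    · subst hu
      simp only [if_true, hv, if_false, add_zero, K]
      rw [hw, hne v hv, hsym u v]
      have f1 : ∀ k : ι, (if k = c v then s v u / p (c v) else 0)
          = (if c v = k then s v u / p k else 0) := by
        intro k
        by_cases h : c v = k
        · simp [h]
        · have h' : ¬ k = c v := fun e => h e.symm
          simp [h, h']
      rw [f1 j, f1 (c u)]
      ring
    · subst hv
      simp only [if_true, hu, if_false, add_zero, K]
      rw [hw, hne u hu]
      ring
    · simp only [hu, hv, if_false, add_zero]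
      rw [hne u hu, hne v hv]
  have hsum : PhiE s p c' = ∑ u, ((∑ v, if c u = c v then s u v / p (c v) else 0)
      + (if u = w then ∑ v, K v else 0) + K u) := by
    unfold PhiE
    apply Finset.sum_congr rfl
    intro u _
    rw [Finset.sum_congr rfl (fun v _ => hpair u v), Finset.sum_add_distrib,
      Finset.sum_add_distrib]
    congr 1
    · congr 1
      by_cases hu : u = w
      · simp [hu]
      · simp [hu]
    · rw [Finset.sum_ite_eq' univ w]
      simp
  rw [hsum, Finset.sum_add_distrib, Finset.sum_add_distrib, Finset.sum_ite_eq' univ w]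
  simp only [mem_univ, if_true]
  unfold PhiE
  simp only [K]
  ring

lemma colour [Nonempty ι] (s : V → V → ℝ) (hsym : ∀ u v, s u v = s v u)
    (hd : ∀ v, s v v = 0) (p : ι → ℝ) (hp : ∀ i, 0 < p i) (hp1 : ∑ i, p i = 1) :
    ∃ c : V → ι, ∀ w, ∑ u, (if c u = c w then s u w else 0) ≤ p (c w) * ∑ u, s u w := by
  classical
  obtain ⟨c, hc⟩ := Finite.exists_min (fun c : V → ι => PhiE s p c)
  refine ⟨c, fun w => ?_⟩
  let T : ι → ℝ := fun j => ∑ u, if c u = j then s u w else 0
  have hT : ∀ j, T (c w) * p j ≤ T j * p (c w) := by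
    intro j
    have h1 := PhiE_update s hsym hd p c w j
    have h2 := hc (Function.update c w j)
    rw [Finset.sum_sub_distrib] at h1
    have e1 : ∀ (j : ι), ∑ u, (if c u = j then s u w / p j else 0) = T j / p j := by
      intro j
      simp only [T]
      rw [Finset.sum_div]
      apply Finset.sum_congr rfl
      intro u _
      by_cases h : c u = j <;> simp [h]
    rw [e1, e1] at h1
    have h3 : T (c w) / p (c w) ≤ T j / p j := by linarith
    rwa [div_le_div_iff₀ (hp _) (hp _)] at h3
  have hsum : ∑ j, T (c w) * p j ≤ ∑ j, T j * p (c w) := Finset.sum_le_sum fun j _ => hT j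
  rw [← Finset.mul_sum, hp1, mul_one, ← Finset.sum_mul] at hsum
  have e2 : ∑ j, T j = ∑ u, s u w := by
    simp only [T]
    rw [Finset.sum_comm]
    apply Finset.sum_congr rfl
    intro u _
    simp
  rw [e2] at hsum
  simp only [T] at hsum
  linarith

/-- One step: `c > κ`. -/
lemma split_c [Nonempty ι] (A : V → V → ℝ) (hsym : ∀ u v, A u v = A v u)
    (hd : ∀ v, A v v = 0) (hA : ∀ u v, 0 ≤ A u v) (κ c : ℝ) (hκ : κ < c)
    (hE : ∀ s : Finset V, ∑ u ∈ s, ∑ v ∈ s, A u v ≤ 2 * κ * s.card)
    (p : ι → ℝ) (hp : ∀ i, 0 < p i) (hp1 : ∑ i, p i = 1) :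
    ∃ col : V → ι, ∀ i, ∀ s : Finset V, (∀ v ∈ s, col v = i) →
      ∑ u ∈ s, ∑ v ∈ s, A u v ≤ 2 * (p i * c) * s.card := by
  obtain ⟨h, hh, hX⟩ := balance A hsym hd hA κ c hκ hE
  let S : V → V → ℝ := fun u v => A u v * (h u * h v / (h u + h v))
  have hS1 : ∀ u v, S u v = S v u := by
    intro u v
    simp only [S]
    rw [hsym u v, add_comm (h u), mul_comm (h u)]
  have hS2 : ∀ v, S v v = 0 := by intro v; simp [S, hd]
  obtain ⟨col, hcol⟩ := colour S hS1 hS2 p hp hp1
  refine ⟨col, ?_⟩
  have key : ∀ w, ∑ u, (if col u = col w then A u w * (h u / (h u + h w)) else 0)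
      ≤ p (col w) * c := by
    intro w
    have h1 := hcol w
    have e1 : ∑ u, S u w = h w * ∑ u, A u w * (h u / (h u + h w)) := by
      rw [Finset.mul_sum]
      apply Finset.sum_congr rfl
      intro u _
      simp only [S]
      ring
    have e2 : ∑ u, (if col u = col w then S u w else 0) =
        h w * ∑ u, (if col u = col w then A u w * (h u / (h u + h w)) else 0) := by
      rw [Finset.mul_sum]
      apply Finset.sum_congr rfl
      intro u _
      by_cases hc : col u = col w
      · simp only [hc, if_true, S]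
        ring
      · simp [hc]
    rw [e1, e2] at h1
    have h2 := mul_le_mul_of_nonneg_left (hX w) (mul_nonneg (hp (col w)).le (hh w).le)
    have h3 : h w * ∑ u, (if col u = col w then A u w * (h u / (h u + h w)) else 0)
        ≤ h w * (p (col w) * c) := by
      calc _ ≤ _ := h1
        _ = p (col w) * h w * ∑ u, A u w * (h u / (h u + h w)) := by ring
        _ ≤ _ := h2
        _ = _ := by ring
    exact le_of_mul_le_mul_left h3 (hh w)
  intro i s hs
  have hsplit : ∑ u ∈ s, ∑ v ∈ s, A u v
      = 2 * ∑ w ∈ s, ∑ u ∈ s, A u w * (h u / (h u + h w)) := by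
    have e1 : ∑ u ∈ s, ∑ v ∈ s, A u v = ∑ u ∈ s, ∑ v ∈ s, (A u v * (h u / (h u + h v))
        + A v u * (h v / (h v + h u))) := by
      apply Finset.sum_congr rfl
      intro u _
      apply Finset.sum_congr rfl
      intro v _
      have h1 := hh u
      have h2 := hh v
      rw [hsym v u]
      field_simp
      ring
    rw [e1]
    simp only [Finset.sum_add_distrib]
    have e2 : ∑ u ∈ s, ∑ v ∈ s, A u v * (h u / (h u + h v))
        = ∑ w ∈ s, ∑ u ∈ s, A u w * (h u / (h u + h w)) := Finset.sum_comm
    rw [e2]
    ring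
  rw [hsplit]
  have hle : ∑ w ∈ s, ∑ u ∈ s, A u w * (h u / (h u + h w)) ≤ ∑ w ∈ s, p i * c := by
    apply Finset.sum_le_sum
    intro w hw
    refine le_trans ?_ (show ∑ u, (if col u = col w then A u w * (h u / (h u + h w)) else 0)
      ≤ p i * c by rw [← hs w hw]; exact key w)
    have e3 : ∑ u ∈ s, A u w * (h u / (h u + h w)) =
        ∑ u ∈ s, (if col u = col w then A u w * (h u / (h u + h w)) else 0) := by
      apply Finset.sum_congr rfl
      intro u hu
      rw [hs u hu, hs w hw]
      simp
    rw [e3]
    refine Finset.sum_le_sum_of_subset_of_nonneg (Finset.subset_univ s) ?_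
    intro u _ _
    by_cases hc : col u = col w
    · simp only [hc, if_true]
      have h1 := hh u
      have h2 := hh w
      exact mul_nonneg (hA u w) (by positivity)
    · simp [hc]
  rw [Finset.sum_const, nsmul_eq_mul] at hle
  linarith

/-- The weighted partition theorem with positive proportions. -/
lemma split_pos [Nonempty ι] (A : V → V → ℝ) (hsym : ∀ u v, A u v = A v u)
    (hd : ∀ v, A v v = 0) (hA : ∀ u v, 0 ≤ A u v) (κ : ℝ)
    (hE : ∀ s : Finset V, ∑ u ∈ s, ∑ v ∈ s, A u v ≤ 2 * κ * s.card)
    (p : ι → ℝ) (hp : ∀ i, 0 < p i) (hp1 : ∑ i, p i = 1) :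
    ∃ col : V → ι, ∀ i, ∀ s : Finset V, (∀ v ∈ s, col v = i) →
      ∑ u ∈ s, ∑ v ∈ s, A u v ≤ 2 * (p i * κ) * s.card := by
  classical
  by_contra hcon
  push Not at hcon
  choose i s hs hlt using hcon
  have hev : ∀ᶠ c : ℝ in nhdsWithin κ (Set.Ioi κ), ∀ col : V → ι,
      2 * (p (i col) * c) * (s col).card < ∑ u ∈ s col, ∑ v ∈ s col, A u v := by
    rw [Filter.eventually_all]
    intro col
    have hcont : Continuous fun c : ℝ => 2 * (p (i col) * c) * ((s col).card : ℝ) := by fun_prop
    have hopen : ∀ᶠ c : ℝ in nhds κ,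
        2 * (p (i col) * c) * ((s col).card : ℝ) < ∑ u ∈ s col, ∑ v ∈ s col, A u v :=
      hcont.continuousAt.eventually_lt continuousAt_const (hlt col)
    exact hopen.filter_mono nhdsWithin_le_nhds
  obtain ⟨c, hc1, hc2⟩ := (hev.and self_mem_nhdsWithin).exists
  obtain ⟨col, hcol⟩ := split_c A hsym hd hA κ c hc2 hE p hp hp1
  exact absurd (hcol (i col) (s col) (hs col)) (not_le.mpr (hc1 col))

end Colour

end Pool.Agent.H28.MD
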